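import Pool.Agent.Lib.MP_666dc0_nt.RigidCR

open NumberField IsDedekindDomain Polynomial Pool.Agent.Lib.MP_666dc0_nt
open scoped NumberField Pointwise

namespace Pool.Agent.Lib.MP_666dc0_nt.Variants.FiniteCheck

/-- **One finite set of places decides.** Let `F` be a number field and `Ĝ = Spec O` an affine
group scheme of finite type over `ℚ` on which `Γ_F` acts through a finite quotient, unramified
outside a finite set `S` of finite places; `ᴸG = Ĝ ⋊ Γ_F`. For each place `v ∉ S` let `φ v` be an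
(arithmetic or geometric) Frobenius element at `v`. For every prime `ℓ` and every `d` there is
a finite set `T` of places `v ∉ S`, `v ∤ ℓ`, such that the following are equivalent for every
family of `ℚ̄_ℓ`-points `x v` of the quotients `X_v` of `Ĝ ⋊ φ v` by `Ĝ`-conjugation:

* the points `x v` (`v ∉ S`, `v ∤ ℓ`) are defined over one extension `L` of `ℚ_ℓ` of degree at
  most `d`, and there is an admissible, completely reducible `r : Γ_F → ᴸG(ℚ̄_ℓ)` conjugate to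
  `x v` at all `v ∉ S`, `v ∤ ℓ`;
* for every `v ∉ S`, `v ∤ ℓ`, there is an admissible, completely reducible
  `r : Γ_F → ᴸG(ℚ̄_ℓ)`, unramified outside `S` and `ℓ`, whose Frobenius classes outside `S` and `ℓ`
  are defined over one extension of `ℚ_ℓ` of degree at most `d`, that is conjugate to `x w`
  for all `w ∈ T` and for `w = v`. -/
theorem result {F : Type*} [Field F] [NumberField F]
    {O : Type} [CommRing O] [HopfAlgebra ℚ O] [Algebra.FiniteType ℚ O]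
    (A : HopfAction Gal(AlgebraicClosure F/F) O)
    (hA : IsOpen (A.act.ker : Set Gal(AlgebraicClosure F/F)))
    (S : Finset (HeightOneSpectrum (𝓞 F)))
    (hS : ∀ v, v ∉ S → ∀ P u, IsInertiaAt v P u → A.act u = 1)
    (φ : HeightOneSpectrum (𝓞 F) → Gal(AlgebraicClosure F/F))
    (hφ : ∀ v, v ∉ S → ∃ P : Ideal (𝓞 (AlgebraicClosure F)), IsOver v P ∧
      (IsFrob v P (φ v) ∨ IsFrob v P (φ v)⁻¹))
    (ℓ : ℕ) [Fact ℓ.Prime] (d : ℕ) :
    ∃ T : Finset (HeightOneSpectrum (𝓞 F)),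
      (∀ v ∈ T, v ∉ S ∧ (ℓ : 𝓞 F) ∉ v.asIdeal) ∧
      ∀ x : ∀ v, A.inv (φ v) →+* PadicAlgCl ℓ,
        ((∃ L : IntermediateField ℚ_[ℓ] (PadicAlgCl ℓ), FiniteDimensional ℚ_[ℓ] L ∧
            Module.finrank ℚ_[ℓ] L ≤ d ∧
            ∀ v, v ∉ S → (ℓ : 𝓞 F) ∉ v.asIdeal → ∀ f, x v f ∈ L) ∧
          ∃ r : Gal(AlgebraicClosure F/F) →* A.LGroup (PadicAlgCl ℓ),
            IsAdmissible A r ∧ IsCompletelyReducible r ∧
            ∀ v, v ∉ S → (ℓ : 𝓞 F) ∉ v.asIdeal → IsConjAt A r v (φ v) (x v)) ↔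
        (∀ v, v ∉ S → (ℓ : 𝓞 F) ∉ v.asIdeal →
          ∃ r : Gal(AlgebraicClosure F/F) →* A.LGroup (PadicAlgCl ℓ),
            IsAdmissible A r ∧ IsCompletelyReducible r ∧
            (∀ w, w ∉ S → (ℓ : 𝓞 F) ∉ w.asIdeal → ∀ P u, IsInertiaAt w P u → (r u).left = 1) ∧
            (∃ L : IntermediateField ℚ_[ℓ] (PadicAlgCl ℓ), FiniteDimensional ℚ_[ℓ] L ∧
              Module.finrank ℚ_[ℓ] L ≤ d ∧
              ∀ w, w ∉ S → (ℓ : 𝓞 F) ∉ w.asIdeal → ∀ f ∈ A.inv (φ w), (r (φ w)).left.hom f ∈ L) ∧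
            ∀ w, (w ∈ T ∨ w = v) → IsConjAt A r w (φ w) (x w)) := by
  classical
  have hℓ0 : (ℓ : 𝓞 F) ≠ 0 := by exact_mod_cast (Fact.out : ℓ.Prime).ne_zero
  have hfin : {v : HeightOneSpectrum (𝓞 F) | (ℓ : 𝓞 F) ∈ v.asIdeal}.Finite := finite_mem hℓ0
  let S' : Finset (HeightOneSpectrum (𝓞 F)) := S ∪ hfin.toFinset
  have hS' : ∀ v, v ∉ S' ↔ v ∉ S ∧ (ℓ : 𝓞 F) ∉ v.asIdeal := by
    intro v
    simp only [S', Finset.mem_union, Set.Finite.mem_toFinset, Set.mem_ofPred_eq, not_or]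
  have hst : ∀ Φ : Set O, Φ.Finite → ∃ Φ' : Set O, Φ'.Finite ∧ Φ ⊆ Φ' ∧
    ∀ γ, ∀ f ∈ Φ', A.act γ f ∈ Φ' := fun Φ hΦ => exists_stable hA hΦ
  obtain ⟨T, hT1, hT2⟩ := exists_finset_matched_cr A hA S'
    (fun v hv P hP u hu => hS v ((hS' v).mp hv).1 P u ⟨hP, hu⟩) φ
    (fun v hv => hφ v ((hS' v).mp hv).1) ℓ d
  refine ⟨T, fun v hv => (hS' v).mp (hT1 v hv), fun x => ⟨?_, fun h => ?_⟩⟩
  · rintro ⟨⟨L, hL1, hL2, hL3⟩, r, h1, h2, h4⟩ v hv hvℓ
    refine ⟨r, h1, h2, fun w hw hwℓ => (h4 w hw hwℓ).unram, ⟨L, hL1, hL2, fun w hw hwℓ f hf => ?_⟩,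
      ?_⟩
    · rw [(h4 w hw hwℓ).value ⟨f, hf⟩]
      exact hL3 w hw hwℓ _
    rintro w (hw | rfl)
    · exact h4 w ((hS' w).mp (hT1 w hw)).1 ((hS' w).mp (hT1 w hw)).2
    · exact h4 w hv hvℓ
  · obtain ⟨v₀, hv₀⟩ : ∃ v, v ∉ (S' : Set (HeightOneSpectrum (𝓞 F))) := by
      obtain ⟨v, hv, -⟩ := exists_split_frob (A := AlgebraicClosure F) (F := F) ⊤ isOpen_univ ⊤
        isOpen_univ S' S'.finite_toSet 1 trivial
      exact ⟨v, hv⟩
    obtain ⟨r, hr1, hr2, hr4, ⟨L, hL1, hL2, hL3⟩, hr5⟩ := h v₀ ((hS' v₀).mp hv₀).1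
      ((hS' v₀).mp hv₀).2
    have hall : ∀ v, v ∉ S → (ℓ : 𝓞 F) ∉ v.asIdeal → IsConjAt A r v (φ v) (x v) := by
      intro v hv hvℓ
      obtain ⟨r', hr1', hr2', hr4', ⟨L', hL1', hL2', hL3'⟩, hr5'⟩ := h v hv hvℓ
      have hun : ∀ r : Gal(AlgebraicClosure F/F) →* A.LGroup (PadicAlgCl ℓ),
          (∀ w, w ∉ S → (ℓ : 𝓞 F) ∉ w.asIdeal → ∀ P u, IsInertiaAt w P u → (r u).left = 1) →
            UnramOutside S' r := fun r h w hw P hP u hu =>
        h w ((hS' w).mp hw).1 ((hS' w).mp hw).2 P u ⟨hP, hu⟩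
      have hm := hT2 r r' hr1 hr1' hr2 hr2' (hun r hr4) (hun r' hr4')
        ⟨L, hL1, hL2, fun w hw => hL3 w ((hS' w).mp hw).1 ((hS' w).mp hw).2⟩
        ⟨L', hL1', hL2', fun w hw => hL3' w ((hS' w).mp hw).1 ((hS' w).mp hw).2⟩
        (fun w hw f hf => by
          rw [(hr5 w (Or.inl hw)).value ⟨f, hf⟩, (hr5' w (Or.inl hw)).value ⟨f, hf⟩])
      have heqv : ∀ γ, A.Eqv (r γ) (r' γ) := fun γ =>
        ⟨(hr1.proj γ).trans (hr1'.proj γ).symm, fun f hf => hm γ f (by rwa [hr1.proj] at hf)⟩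
      have hc := hr5' v (Or.inr rfl)
      refine ⟨hr4 v hv hvℓ, ?_, fun f => ?_⟩
      · refine isSemisimpleElt_of_squarefree hst fun m ρ => ?_
        obtain ⟨p, hp, hp'⟩ := exists_squarefree_of_isSemisimpleElt ρ hc.semisimple
        refine ⟨p, hp, ?_⟩
        refine ev_eq_zero ρ r hr2 ⊤ inferInstance _ ?_ ?_
        · rw [aeval_eq_sum_range]
          refine Submodule.sum_mem _ fun i _ => Submodule.smul_mem _ _ (Submodule.subset_span
            ⟨φ v ^ i, trivial, ?_⟩)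
          change ρ.ev (PadicAlgCl ℓ) (r (φ v ^ i)) = _
          rw [map_pow, map_pow]
        · intro γ _
          have e1 : (aeval (ρ.ev (PadicAlgCl ℓ) (r (φ v))) p * ρ.ev (PadicAlgCl ℓ) (r γ)).trace =
              (aeval (ρ.ev (PadicAlgCl ℓ) (r' (φ v))) p * ρ.ev (PadicAlgCl ℓ) (r' γ)).trace := by
            rw [aeval_eq_sum_range, aeval_eq_sum_range, Finset.sum_mul, Finset.sum_mul,
              Matrix.trace_sum, Matrix.trace_sum]
            refine Finset.sum_congr rfl fun i _ => ?_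
            rw [smul_mul_assoc, smul_mul_assoc, Matrix.trace_smul, Matrix.trace_smul, ← map_pow,
              ← map_pow, ← map_pow, ← map_pow, ← map_mul, ← map_mul, ← map_mul, ← map_mul]
            congr 1
            exact ρ.trace_eq (heqv _)
          rw [e1, hp', zero_mul, Matrix.trace_zero]
      · rw [hm (φ v) f f.2, hc.value f]
    refine ⟨⟨L, hL1, hL2, fun v hv hvℓ f => ?_⟩, r, hr1, hr2, hall⟩
    rw [← (hall v hv hvℓ).value f]
    exact hL3 v hv hvℓ f f.2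

end Pool.Agent.Lib.MP_666dc0_nt.Variants.FiniteCheck
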