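import Pool.Agent.Lib.MP_666dc0_nt.IG.Kj
import Pool.Agent.Lib.MP_666dc0_nt.IG.Kl

open NumberField IsDedekindDomain Pool.Agent.Lib.MP_666dc0_nt TensorProduct
open scoped NumberField TensorProduct

namespace Pool.Agent.Results.MP_666dc0_nt.Interpolation

/-- **Interpolation of Galois representations with values in L-groups, from one-variable data.**
Let `F` be a number field, `B` a principal ideal domain with field of fractions `ℚ` (for example
`ℤ` or `ℤ_(ℓ)`), and `Ĝ = Spec O` an affine group scheme of finite type over `B`, with `O` a free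
`B`-module and linearly reductive generic fibre, on which `Γ_F` acts through a finite quotient,
unramified outside a finite set `S` of finite places of `F`; `ᴸG = Ĝ ⋊ Γ_F`. For `v ∉ S` let `φ v` be
an (arithmetic or geometric) Frobenius element at `v`.

Let `T` be a commutative ring with a compact topology and `x v f ∈ T` any family of elements
(`f` an invariant function on the coset `Ĝ ⋊ φ v`). Suppose that every `t ≠ 0` in `T` is detected by
Galois representations: there are a continuous homomorphism `e : T → R` to a Hausdorff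
topological `B`-algebra `R` with `e(t) ≠ 0` and a homomorphism `Γ_F → ᴸG(R)` attached to the family
`e (x v f)`.

Then for *every* continuous homomorphism `y : T → K` to an algebraically closed topological
field `K` of characteristic zero there is a homomorphism `r : Γ_F → ᴸG(K)` attached to the family
`y (x v f)`. Moreover, given a matrix representation `ρ` of `ᴸG` that is faithful on the generic
fibre of `Ĝ` (it exists), `r` can be chosen such that `r(γ)` is a semisimple element of `ᴸG(K)`
whenever `ρ'(γ)` is semisimple for some linear representation `ρ'` of `Γ_F` over `K` with the same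
trace as `ρ ∘ r`. -/
theorem result {F : Type} [Field F] [NumberField F]
    {B : Type} [CommRing B] [IsDomain B] [IsPrincipalIdealRing B] [Algebra B ℚ] [IsFractionRing B ℚ]
    {O : Type} [CommRing O] [HopfAlgebra B O] [Algebra.FiniteType B O] [Module.Free B O]
    (hO : LinearlyReductive (ℚ ⊗[B] O))
    (A : OverB.HopfAction B Gal(AlgebraicClosure F/F) O)
    (hA : IsOpen (A.act.ker : Set Gal(AlgebraicClosure F/F)))
    (S : Finset (HeightOneSpectrum (𝓞 F)))
    (hS : ∀ v, v ∉ S → ∀ P u, IsInertiaAt v P u → A.act u = 1)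
    (φ : HeightOneSpectrum (𝓞 F) → Gal(AlgebraicClosure F/F))
    (hφ : ∀ v, v ∉ S → ∃ P : Ideal (𝓞 (AlgebraicClosure F)), IsOver v P ∧
      (IsFrob v P (φ v) ∨ IsFrob v P (φ v)⁻¹))
    (T : Type) [CommRing T] [TopologicalSpace T] [CompactSpace T] (x : ∀ v, A.inv (φ v) → T)
    (hx : ∀ t : T, t ≠ 0 → OverB.IsDetected A S φ x t)
    (K : Type) [Field K] [CharZero K] [IsAlgClosed K] [Algebra B K] [TopologicalSpace K]
    [IsTopologicalRing K] (y : T →+* K) (hy : Continuous y) :
    (∃ (n : ℕ) (ρ : OverB.MatRep A n), OverB.IsFaithfulRep ρ) ∧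
    ∀ (n : ℕ) (ρ : OverB.MatRep A n), OverB.IsFaithfulRep ρ →
      ∃ r : Gal(AlgebraicClosure F/F) →* A.LGroup K,
        OverB.IsAttachedTo A S φ (fun v f => y (x v f)) r ∧ OverB.SemisimpleCriterion ρ r := by
  refine ⟨IG.exists_faithful_Z hA, fun n ρ hρ => ?_⟩
  have h1 : ∀ t : {t : T // t ≠ 0}, ∃ (R : Type) (_ : CommRing R) (_ : Algebra B R)
      (_ : TopologicalSpace R) (_ : T2Space R) (e : T →+* R), Continuous e ∧ e t ≠ 0 ∧
      ∃ r : Gal(AlgebraicClosure F/F) →* A.LGroup R,
        OverB.IsAttachedTo A S φ (fun v f => e (x v f)) r := fun t => by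
    obtain ⟨e, he, ht, r, hr⟩ := hx t t.2
    exact ⟨_, _, _, _, inferInstance, e, he, ht, r, hr⟩
  choose R i1 i2 i3 i4 e he ht hr using h1
  exact IG.interpolation_Z hO hA hS hφ ρ hρ x e he
    (fun t ht' => by_contra fun h => ht ⟨t, h⟩ (ht' ⟨t, h⟩)) hr y hy

end Pool.Agent.Results.MP_666dc0_nt.Interpolation
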