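import Pool.Agent.Lib.MP_666dc0_nt.LV.Z5

open NumberField IsDedekindDomain LaurentPolynomial Pool.Agent.Lib.MP_666dc0_nt
open scoped NumberField

namespace Pool.Agent.Lib.MP_666dc0_nt.Variants.LeviDescent

/-- **Main theorem** (Levi descent for the conjecture of Buzzard and Gee). Let `F` be a number field,
`Ĝ = Spec O` a linearly reductive affine group scheme of finite type over `ℚ` on which `Γ_F` acts through
a finite quotient, unramified outside a finite set `S` of finite places, and `M̂ = Spec O'` the centraliser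
in `Ĝ` of a `Γ_F`-fixed cocharacter `μ`; `ᴸM = M̂ ⋊ Γ_F` is a Levi subgroup of `ᴸG = Ĝ ⋊ Γ_F`. For `v ∉ S` let
`φ v` be a Frobenius element (all arithmetic or all geometric) and `m v ∈ M̂(ℂ)`; the classes `[m v]` of the
elements `(m v, φ v)` of `ᴸM` in `(M̂ ⋊ φ v) // M̂` are arbitrary, for instance the Satake parameters of a
representation `Π` of `M`. Then the classes `[m v · μ(N(v)^k)]` in `(Ĝ ⋊ φ v) // Ĝ` are the Satake parameters of
the constituents of the representation of `G` parabolically induced from `Π ⊗ |μ|^k` (up to the sign of `k`).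
Let `Λ` be a set of primes. The following are equivalent:

* Q1 (parts 1 and 2, for the primes in `Λ`) holds for `ᴸM` and the family `([m v])_v`;
* Q1 holds for `ᴸG` and the family `([m v · μ(N(v)^k)])_v`, for all integers `k`;
* for every `ℓ ∈ Λ` and every field isomorphism `ι : ℂ ≃ ℚ̄_ℓ` there are infinitely many integers `k`
  such that there is an admissible homomorphism `Γ_F → ᴸG(ℚ̄_ℓ)` conjugate to `ι([m v · μ(N(v)^k)])` at all
  `v ∉ S`, `v ∤ ℓ`.

For `μ = 1` (so `M̂ = Ĝ`) the last condition has no `k`, and the theorem says that part 1 of Q1 follows from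
part 2 for the isomorphisms `ℂ ≃ ℚ̄_ℓ`. -/
theorem result {F : Type} [Field F] [NumberField F]
    {O O' : Type} [CommRing O] [HopfAlgebra ℚ O] [Algebra.FiniteType ℚ O] [CommRing O']
    [HopfAlgebra ℚ O'] (hO : LinearlyReductive O) (hO' : LinearlyReductive O')
    (A : HopfAction Gal(AlgebraicClosure F/F) O) (A' : HopfAction Gal(AlgebraicClosure F/F) O')
    (hA : IsOpen (A.act.ker : Set Gal(AlgebraicClosure F/F)))
    (π : O →ₐc[ℚ] O') (μ : O →ₐc[ℚ] ℚ[T;T⁻¹]) (hM : IsLevi A A' π μ)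
    (S : Finset (HeightOneSpectrum (𝓞 F)))
    (hS : ∀ v, v ∉ S → ∀ P u, IsInertiaAt v P u → A.act u = 1)
    (φ : HeightOneSpectrum (𝓞 F) → Gal(AlgebraicClosure F/F))
    (hφ : (∀ v, v ∉ S → ∃ P, IsOver v P ∧ IsFrob v P (φ v)) ∨
      ∀ v, v ∉ S → ∃ P, IsOver v P ∧ IsFrob v P (φ v)⁻¹)
    (m : HeightOneSpectrum (𝓞 F) → Pts O' ℂ) (Λ : Set ℕ) (hΛ : ∀ ℓ ∈ Λ, ℓ.Prime) :
    List.TFAE [
      SatisfiesQ1 A' S φ Λ fun v => A'.cls (φ v) (m v),
      ∀ k : ℤ, SatisfiesQ1 A S φ Λ fun v =>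
        A.cls (φ v) (Pts.incl π (m v) * Pts.cochar μ (normUnit ℂ v ^ k)),
      ∀ (ℓ : ℕ) [Fact ℓ.Prime], ℓ ∈ Λ → ∀ ι : ℂ →+* PadicAlgCl ℓ, Function.Bijective ι →
        {k : ℤ | HasRep A S φ ℓ fun v => ι.comp
          (A.cls (φ v) (Pts.incl π (m v) * Pts.cochar μ (normUnit ℂ v ^ k)))}.Infinite] := by
  tfae_have 1 → 2 := fun h k => LV.levi_one_two A A' hA π μ hM S φ hφ m Λ h k
  tfae_have 2 → 3 := fun h ℓ _ hℓ ι _ => LV.levi_two_three A π μ S φ m Λ h ℓ hℓ ι
  tfae_have 3 → 1 := fun h =>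
    LV.levi_three_one' hO hO' A A' hA π μ hM S hS φ hφ m Λ hΛ h
  tfae_finish

end Pool.Agent.Lib.MP_666dc0_nt.Variants.LeviDescent
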