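import Pool.Agent.Lib.MP_666dc0_nt.Mg.G096

open NumberField IsDedekindDomain TensorProduct Pool.Agent.Lib.MP_666dc0_nt
  Pool.Agent.Lib.MP_666dc0_nt.WL Pool.Agent.Lib.MP_666dc0_nt.ZO Pool.Agent.Lib.MP_666dc0_nt.FM
  Pool.Agent.Lib.MP_666dc0_nt.PL
open scoped NumberField TensorProduct

namespace Pool.Agent.Results.MP_666dc0_nt.LocalTypes

/-- **Forms that are Steinberg at `ℓ`, or of a given type at `ℓ`, suffice for the conjecture of Buzzard and Gee, for groups that
are compact at infinity.**

`F` is a totally real number field and `G ⊆ GL_n` the group over `F` of all matrices that fix a symmetric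
matrix `q`, totally positive definite, and finitely many tensors (the datum `D`). `Ĝ = Spec O`, `ᴸG = Ĝ ⋊ Γ_F`,
the finite set `S` of places (all places above the prime `ℓ` are in it), Frobenius elements `φ v`, a tame level `U`
(open and compact outside `ℓ`) which is good outside `S`, and maps `sat v` from the invariant functions on `Ĝ ⋊ φ v` (`InvFun`)
to the `ℓ`-integral Hecke operators are as in the hand-in Families. `AllSys` is the set of the systems of
Hecke eigenvalues (outside `S`) of the eigenforms of tame level `U`, of ALL weights and ALL levels at `ℓ`.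
No Galois representations, and no finiteness properties of Hecke algebras, are assumed.

`Q` is a Følner sequence of weights (`IsFolner`): a sequence of finite-dimensional spaces `Q_d` of polynomial functions on `G(F ⊗ ℂ)`, stable
under right translations, such that for every `m` the elements of `Q_d` whose products with all polynomials of degree `≤ m` stay in `Q_d`
form a subspace of relative dimension tending to one. (0) For example: right stable spaces of polynomial functions of degree `≤ d` whose
dimensions are asymptotic to that of the space of all polynomial functions of degree `≤ d` (only regular weights, or only weights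
far from the walls of the Weyl chamber).

`b` is the statement of Buzzard and Gee (`BGSys`: the eigenvalues are in a number field `E` and for every embedding `E → ℚ̄_ℓ`
there is an attached homomorphism `Γ_F → ᴸG(ℚ̄_ℓ)`), or any closed property of systems (`IsClosedProp`: stable under `ℓ`-adic
interpolation, see Families).

(A) Let `T = (J, ρ)` be a non-zero type at `ℓ`, `I ⊆ P_j` levels at `ℓ` with `∑ 1 / [P_j : I] < 1`, and let `T'_i = (J_i, ρ_i)` be types at
`ℓ`, `I ⊆ J_i`, and `c_i` real numbers with `∑ c_i (dim ρ_i) / [J_i : I] > 0` (`IsTest`). The following statements are equivalent: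
1. `b` holds for all systems, of all weights and all levels at `ℓ`;
2. for infinitely many `d`, `b` holds for the systems of the new forms of level `U I` with weights in `Q_d` (the forms whose traces to the
   levels `U P_j` vanish; if `I` is an Iwahori subgroup at one place `v ∣ ℓ` and the `P_j` are the minimal parahoric subgroups above it these are the
   forms which are Steinberg at `v`, up to unramified twists);
3. for infinitely many `d`, `b` holds for the systems of the forms of type `T` with weights in `Q_d` (for instance, a supercuspidal type);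
4. for infinitely many `d`, `b` holds for the systems whose multiplicities `m_i` in the forms of type `T'_i` with weights in
   `Q_d` satisfy `∑ c_i m_i > 0` (for instance, Euler–Poincaré functions);
5. for some `x < 1 / r` and infinitely many `d` the share of the forms of type `T` with weights in `Q_d` which violate `b` is at most `x`.
Here `r ≥ 1` depends only on `G`, `U`, `S`, `ℓ`.

(B) More precisely, if `b` fails for the system `lam₀`, of any weight and any level at `ℓ`, then the systems for which it fails and which have the
same residual system as `lam₀` (`SameRes`, up to conjugation) are abundant (`IsAbundantIn`): for all large `d` some of them occur in the new forms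
as in 2, some in the forms of type `T`, some have `∑ c_i m_i > 0` as in 4, their share among the forms of type `T` is at least `1 / r - o(1)`, and
their share among the new forms as in 2 is at least `(1 - ∑ 1 / [P_j : I]) / r - o(1)`.

(C) Every closed property has a density `a / r`, `a` an integer: for ALL types at `ℓ` and ALL Følner sequences its share among the
eigenforms of this type with weights in `Q_d` tends to the SAME number `a / r`. -/
theorem result {F : Type} [Field F] [NumberField F] [IsTotallyReal F] {n : ℕ} (D : Datum F n)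
    (hD : IsTotPosDef D.q) (ℓ : ℕ) [Fact ℓ.Prime]
    {B : Type} [CommRing B] [IsDomain B] [IsPrincipalIdealRing B] [Algebra B ℚ]
    [IsFractionRing B ℚ] [Algebra B (PadicAlgCl ℓ)]
    {O : Type} [CommRing O] [HopfAlgebra B O] [Algebra.FiniteType B O] [Module.Free B O]
    (hO : LinearlyReductive (ℚ ⊗[B] O)) (A : OverB.HopfAction B Gal(AlgebraicClosure F/F) O)
    (hA : IsOpen (A.act.ker : Set Gal(AlgebraicClosure F/F)))
    (S : Finset (HeightOneSpectrum (𝓞 F)))
    (hS : ∀ v, v ∉ S → ∀ P u, IsInertiaAt v P u → A.act u = 1)
    (hSl : ∀ v : HeightOneSpectrum (𝓞 F), (ℓ : 𝓞 F) ∈ v.asIdeal → v ∈ S)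
    (φ : HeightOneSpectrum (𝓞 F) → Gal(AlgebraicClosure F/F))
    (hφ : ∀ v, v ∉ S → ∃ P : Ideal (𝓞 (AlgebraicClosure F)), IsOver v P ∧
      (IsFrob v P (φ v) ∨ IsFrob v P (φ v)⁻¹))
    (U K₁ : Subgroup D.Ad) (hU : IsTame ℓ U) (hK₁ : IsLevel ℓ U K₁) (hUS : ∀ v, v ∉ S → IsGoodAt U v)
    (sat : ∀ v, InvFun A (φ v) → Hecke U v) (hsat : ∀ v f, (sat v f).IsIntegral ℓ) :
    ∃ r : ℕ, 0 < r ∧
    (∀ Q, (∀ d, IsWeight D (Q d)) → (∀ d, Q d ≤ polyLE D d) → Filter.Tendsto
      (fun d => (Module.finrank ℂ (Q d) : ℝ) / Module.finrank ℂ (polyLE D d)) Filter.atTop (nhds 1) → IsFolner D Q) ∧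
    (∀ b : (∀ v, Hecke U v → ℂ) → Prop, (b = BGSys ℓ A S φ sat ∨ ∃ ι, IsClosedProp ℓ S ι b) →
      ∀ Q T I k (P : Fin k → Subgroup D.Ad) m (T' : Fin m → RepType D) c, IsTest D ℓ U Q T I P T' c →
        (∀ lam₀ ∈ AllSys ℓ S U, ¬b lam₀ → ∃ ι : ℂ ≃+* PadicAlgCl ℓ,
          IsAbundantIn S r (fun lam => SameRes ℓ S ι lam lam₀ ∧ ¬b lam) Q T I P T' c) ∧
        List.TFAE [
          ∀ lam ∈ AllSys ℓ S U, b lam,
          ∃ᶠ d in Filter.atTop, ∀ lam f, IsNewForm D (Q d) U I P f → f ≠ 0 → IsEigen S f lam → b lam,
          ∃ᶠ d in Filter.atTop, ∀ lam f, IsRepForm D (Q d) U T f → f ≠ 0 → (∀ i, IsEigen S (f i) lam) → b lam,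
          ∃ᶠ d in Filter.atTop, ∀ lam, 0 < ∑ i, c i * dimR S (Q d) (T' i) (· = lam) → b lam,
          ∃ x : ℝ, x < 1 / r ∧ ∃ᶠ d in Filter.atTop,
            (dimR S (Q d) T (fun lam => ¬b lam) : ℝ) ≤ x * dimR (U := U) S (Q d) T (fun _ => True)]) ∧
    ∀ ι (p : (∀ v, Hecke U v → ℂ) → Prop), IsClosedProp ℓ S ι p →
      ∃ a : ℕ, a ≤ r ∧ ∀ Q, IsFolner D Q → ∀ T, IsRepTypeAt ℓ U T → T.r ≠ 0 →
        Filter.Tendsto (fun d => (dimR S (Q d) T p : ℝ) / dimR (U := U) S (Q d) T fun _ => True) Filter.atTop
          (nhds (a / r)) :=
  main6 hD hO A hA hS hSl φ hφ hU hK₁ hUS sat hsat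

end Pool.Agent.Results.MP_666dc0_nt.LocalTypes
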