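import Pool.Agent.Lib.MP_666dc0_nt.PatchMain
import Pool.Agent.Lib.MP_666dc0_nt.Mg.G099

open NumberField IsDedekindDomain Pool.Agent.Lib.MP_666dc0_nt
open scoped NumberField Pointwise

namespace Pool.Agent.Results.MP_666dc0_nt.Patching

/-- **Patching.** Let `F` be a number field and `Ĝ = Spec O` an affine group scheme of finite type
over `ℚ` on which `Γ_F` acts through a finite quotient, unramified outside a finite set `S` of
finite places; `ᴸG = Ĝ ⋊ Γ_F`. For each place `v ∉ S` let `φ v` be an (arithmetic or geometric)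
Frobenius element at `v`, and let `x v` be an arbitrary `ℚ̄_ℓ`-point of the quotient `X_v` of
`Ĝ ⋊ φ v` by `Ĝ`-conjugation. The following are equivalent:

* there is an admissible, completely reducible `r : Γ_F → ᴸG(ℚ̄_ℓ)` conjugate to `x v` at all
  `v ∉ S`, `v ∤ ℓ`;
* for every finite Galois extension `L` of `F` in `F̄` and every `v ∉ S`, `v ∤ ℓ`, there are a finite
  extension `F'` of `F` in `F̄` with `F' ∩ L = F` that has an unramified place of degree one
  above `v`, and an admissible, completely reducible `r' : Γ_{F'} → ᴸG(ℚ̄_ℓ)` conjugate to `x w`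
  at all unramified places of `F'` of degree one above `w`, for `w = v` and for all but finitely
  many `w`. -/
theorem result {F : Type*} [Field F] [NumberField F]
    {O : Type} [CommRing O] [HopfAlgebra ℚ O] [Algebra.FiniteType ℚ O]
    (A : HopfAction Gal(AlgebraicClosure F/F) O)
    (hA : IsOpen (A.act.ker : Set Gal(AlgebraicClosure F/F)))
    (S : Finset (HeightOneSpectrum (𝓞 F)))
    (hS : ∀ v, v ∉ S → ∀ P u, IsInertiaAt v P u → A.act u = 1)
    (φ : HeightOneSpectrum (𝓞 F) → Gal(AlgebraicClosure F/F))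
    (hφ : ∀ v, v ∉ S → ∃ P : Ideal (𝓞 (AlgebraicClosure F)), IsOver v P ∧
      (IsFrob v P (φ v) ∨ IsFrob v P (φ v)⁻¹))
    (ℓ : ℕ) [Fact ℓ.Prime]
    (x : ∀ v, A.inv (φ v) →+* PadicAlgCl ℓ) :
    (∃ r : Gal(AlgebraicClosure F/F) →* A.LGroup (PadicAlgCl ℓ), IsAdmissible A r ∧
      IsCompletelyReducible r ∧
      ∀ v, v ∉ S → (ℓ : 𝓞 F) ∉ v.asIdeal → IsConjAt A r v (φ v) (x v)) ↔
    (∀ L : IntermediateField F (AlgebraicClosure F), FiniteDimensional F L → IsGalois F L →
      ∀ v, v ∉ S → (ℓ : 𝓞 F) ∉ v.asIdeal →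
      ∃ F' : IntermediateField F (AlgebraicClosure F), FiniteDimensional F F' ∧ F' ⊓ L = ⊥ ∧
        (∃ P, IsSplitAt v P F'.fixingSubgroup) ∧
        ∃ r' : F'.fixingSubgroup →* A.LGroup (PadicAlgCl ℓ),
          IsAdmissibleOn A F'.fixingSubgroup r' ∧ IsCompletelyReducible r' ∧
          IsConjAtOn A F'.fixingSubgroup r' v (φ v) (x v) ∧
          {w | ¬ IsConjAtOn A F'.fixingSubgroup r' w (φ w) (x w)}.Finite) := by
  classical
  have hℓ0 : (ℓ : 𝓞 F) ≠ 0 := by exact_mod_cast (Fact.out : ℓ.Prime).ne_zero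
  have hfin : {v : HeightOneSpectrum (𝓞 F) | (ℓ : 𝓞 F) ∈ v.asIdeal}.Finite := finite_mem hℓ0
  let S' : Set (HeightOneSpectrum (𝓞 F)) := (S : Set _) ∪ {v | (ℓ : 𝓞 F) ∈ v.asIdeal}
  have hS'fin : S'.Finite := S.finite_toSet.union hfin
  have hS' : ∀ v, v ∉ S' ↔ v ∉ S ∧ (ℓ : 𝓞 F) ∉ v.asIdeal := by
    intro v
    simp only [S', Set.mem_union, Finset.mem_coe, Set.mem_ofPred_eq, not_or]
  have hst : ∀ Φ : Set O, Φ.Finite → ∃ Φ' : Set O, Φ'.Finite ∧ Φ ⊆ Φ' ∧
    ∀ γ, ∀ f ∈ Φ', A.act γ f ∈ Φ' := fun Φ hΦ => exists_stable hA hΦ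
  constructor
  · rintro ⟨r, hr, hcr, hx⟩ L - - v hv hvℓ
    have hall : ∀ w, w ∉ S' → IsConjAtOn A (⊥ : IntermediateField F (AlgebraicClosure F)).fixingSubgroup
        (r.comp (Subgroup.subtype _)) w (φ w) (x w) := by
      intro w hw
      have hxw := hx w ((hS' w).mp hw).1 ((hS' w).mp hw).2
      refine ⟨fun P _ u _ hu => hxw.unram P u hu, fun P _ δ hδ _ => ?_, fun P _ δ hδ _ f => ?_⟩
      · change A.IsSemisimpleElt (r (δ * φ w * δ⁻¹))
        rw [map_mul, map_mul, map_inv]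
        exact isSemisimpleElt_conj hst hxw.semisimple _
      · change ((SemidirectProduct.inr δ)⁻¹ * r (δ * φ w * δ⁻¹) * SemidirectProduct.inr δ :
          A.LGroup (PadicAlgCl ℓ)).left.hom (f : O) = x w f
        have h1 : ((SemidirectProduct.inr δ)⁻¹ * r (δ * φ w * δ⁻¹) * SemidirectProduct.inr δ :
          A.LGroup (PadicAlgCl ℓ)) = ((SemidirectProduct.inr δ)⁻¹ * r δ) * r (φ w) *
            ((SemidirectProduct.inr δ)⁻¹ * r δ)⁻¹ := by
          rw [map_mul, map_mul, map_inv]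
          group
        have h2 := HopfAction.Eqv.conj (z := (SemidirectProduct.inr δ)⁻¹ * r δ) (z' := 1)
          (HopfAction.Eqv.refl (r (φ w))) (by
            rw [SemidirectProduct.mul_right, SemidirectProduct.inv_right,
              SemidirectProduct.right_inr, hr.proj, inv_mul_cancel]
            rfl)
        rw [one_mul, inv_one, mul_one, ← h1] at h2
        rw [← hxw.value f]
        refine h2.2 f ?_
        have h3 : ((SemidirectProduct.inr δ)⁻¹ * r (δ * φ w * δ⁻¹) * SemidirectProduct.inr δ :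
          A.LGroup (PadicAlgCl ℓ)).right = φ w := by rw [h2.1, hr.proj]
        rw [h3]
        exact f.2
    refine ⟨⊥, inferInstance, bot_inf_eq L, ?_, r.comp (Subgroup.subtype _), ?_, ?_,
      hall v ((hS' v).mpr ⟨hv, hvℓ⟩), hS'fin.subset fun w hw => ?_⟩
    · obtain ⟨P, hP, -⟩ := hφ v hv
      exact ⟨P, hP, fun g _ => by rw [IntermediateField.fixingSubgroup_bot]; trivial⟩
    · exact ⟨fun γ => hr.proj _, fun f => (hr.cont f).comp continuous_subtype_val⟩
    · intro W hW
      obtain ⟨W', h1, h2⟩ := hcr W (fun g => hW ⟨g, by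
        rw [IntermediateField.fixingSubgroup_bot]; trivial⟩)
      exact ⟨W', fun g => h1 _, h2⟩
    · by_contra hw'
      exact hw (hall w hw')
  · intro h
    obtain ⟨r, h1, h2, h3⟩ := patching A hA S' hS'fin (fun v hv => hS v ((hS' v).mp hv).1) φ
      (fun v hv => hφ v ((hS' v).mp hv).1) ℓ x (by
        intro C hCn hCo v hv
        obtain ⟨-, hfd, hgal⟩ := finite_fixedField C hCn hCo
        obtain ⟨F', hF', hd, hP, r', ha, hcr, hxv, hfin'⟩ := h (IntermediateField.fixedField C)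
          hfd hgal v ((hS' v).mp hv).1 ((hS' v).mp hv).2
        refine ⟨F'.fixingSubgroup, r', IntermediateField.fixingSubgroup_isOpen F',
          exists_mul_of_disjoint C hCn hCo F' hd, hP, ha, hcr, hxv,
          {w | ¬ IsConjAtOn A F'.fixingSubgroup r' w (φ w) (x w)} ∪ S', hfin'.union hS'fin,
          Set.subset_union_right, fun w hw => ?_⟩
        by_contra hw'
        exact hw (Or.inl hw'))
    exact ⟨r, h1, h2, fun v hv hvℓ => h3 v ((hS' v).mpr ⟨hv, hvℓ⟩)⟩

end Pool.Agent.Results.MP_666dc0_nt.Patching
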