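import Pool.Agent.Lib.MP_666dc0_nt.TL.Main

open NumberField IsDedekindDomain TensorProduct LaurentPolynomial
open Pool.Agent.Lib.MP_666dc0_nt Pool.Agent.Lib.MP_666dc0_nt.WL Pool.Agent.Lib.MP_666dc0_nt.EC
  Pool.Agent.Lib.MP_666dc0_nt.TP
open scoped NumberField TensorProduct

namespace Pool.Agent.Results.MP_666dc0_nt.TorsionLevi

open Pool.Agent.Lib.MP_666dc0_nt.TL in
/-- **Main theorem** (from torsion classes of `G` to Galois representations for its Levi subgroups).

*The groups.* Let `G` be the stabiliser in `GL_n`, over the number field `F`, of a bilinear form and of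
finitely many tensors (the datum `D`), `μ` a cocharacter of `G` over `F`, `P` its parabolic subgroup
(maximal, see below) and `M` its Levi subgroup, the centraliser of `μ` (the datum `D'`, with a
non-degenerate form and a closed orbit at infinity, as for a reductive group). `Q` is an ordered set with
greatest element and an action of `G(F)`, `Q'` the same for `M(F)`, and `j : Q' → Q` identifies `Q'` with
the elements `≤ j ⊤`; `j ⊤` is maximal among the elements `≠ ⊤`, its stabiliser is `P(F)`, which acts on
the elements below through `P(F) → M(F)`. (For `G` connected reductive and `P` a maximal parabolic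
subgroup: `Q` and `Q'` are the sets of all parabolic `F`-subgroups of `G` and of `M`, and `j(R) = R N`,
`N` the unipotent radical of `P`.) The cohomology groups of `G` and `M` are those of the complexes of
equivariant functions `z(e; x; g)`, `x` a flag in `Q` or `Q'`: with compact support, if `z` is zero on
the flags not ending with `⊤`; the ordinary cohomology, if `Q` is replaced by a point.

*Levels and Hecke operators.* `U` is a tame level of `G`, `K` runs through the levels at `ℓ`; outside the
finite set `S` of places, which contains those above `ℓ`, `U` is a product and `G(F_v) = P(F_v) U_v`.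
`sat (v, f)` is any family of Hecke functions at the places `v ∉ S`, with values in `ℤ_ℓ`, indexed by the
invariant functions `f` on `Ĝ ⋊ φ v`, `φ v` a Frobenius element, for instance given by the Satake
isomorphism. Here `Ĝ = Spec O` is any affine group scheme over the principal ideal domain `B` with
fraction field `ℚ`, with linearly reductive generic fibre and with an action of `Γ_F` through a finite
quotient unramified outside `S`; `M̂ = Spec O'` is the centraliser in `Ĝ_ℚ` of a `Γ_F`-fixed cocharacter `ν`.

*Hypothesis on `G`.* The Hecke operators `sat (v, f)` act on the cohomology of `G` with coefficients in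
`ℤ/ℓ^k` (all degrees, all `k`, all levels at `ℓ`, with and without compact support) through a compact ring
`T`, up to nilpotents of exponent bounded in terms of the degree, and the nonzero elements of `T` are
detected by Galois representations with values in `ᴸG`.

*Conclusion.* Let `m v ∈ M̂(ℚ̄_ℓ)` be a system of Hecke eigenvalues of `M` that occurs in the interior
cohomology `H_!^i(M; V) ⊗ ℚ̄_ℓ` of some degree `i` and level at `ℓ`, with coefficients in ANY continuous
representation `V = ℤ_ℓ^d` of the level at `ℓ`: the constant terms of the operators `sat (v, f)`, graded by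
the absolute value of the character `χ` of `M`, act as the coefficients of `f(m_v ν(T))`. Then there is a
continuous homomorphism `r : Γ_F → ᴸM(ℚ̄_ℓ)` over `Γ_F`, `r(γ) = (c(γ), γ)`, unramified outside `S`, such
that `r(φ v)` has the invariants of `m v` for all `v ∉ S`. -/
theorem result {F : Type} [Field F] [NumberField F] {n : ℕ} {D D' : Datum F n} (μ : Grading D)
    (hM : μ.IsLevi D') (hq : D'.q.det ≠ 0) (hcl : HasClosedOrbit D')
    {Q Q' : Type} [PartialOrder Q] [OrderTop Q] [PartialOrder Q'] [OrderTop Q']
    (a : D.Rat →* (Q ≃o Q)) (a' : D'.Rat →* (Q' ≃o Q')) (j : Q' ↪o Q)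
    (hj : IsFlagPair μ D' a a' j)
    {ℓ : ℕ} [Fact ℓ.Prime] {U : Subgroup D.Ad} (hU : IsTame ℓ U) (hK : ∃ K, IsLevel ℓ U K)
    (hUP : IsLeviStable μ D' U) (S : Finset (HeightOneSpectrum (𝓞 F)))
    (hSl : ∀ v : HeightOneSpectrum (𝓞 F), (ℓ : 𝓞 F) ∈ v.asIdeal → v ∈ S)
    (hgood : ∀ v, v ∉ S → IsGoodAt μ U v)
    {B : Type} [CommRing B] [IsDomain B] [IsPrincipalIdealRing B] [Algebra B ℚ]
    [IsFractionRing B ℚ]
    {O : Type} [CommRing O] [HopfAlgebra B O] [Algebra.FiniteType B O] [Module.Free B O]
    (hO : LinearlyReductive (ℚ ⊗[B] O)) (A : OverB.HopfAction B Gal(AlgebraicClosure F/F) O)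
    (hA : IsOpen (A.act.ker : Set Gal(AlgebraicClosure F/F)))
    (hS : ∀ v, v ∉ S → ∀ P u, IsInertiaAt v P u → A.act u = 1)
    (φ : HeightOneSpectrum (𝓞 F) → Gal(AlgebraicClosure F/F))
    (hφ : (∀ v, v ∉ S → ∃ P, IsOver v P ∧ IsFrob v P (φ v)) ∨
      ∀ v, v ∉ S → ∃ P, IsOver v P ∧ IsFrob v P (φ v)⁻¹)
    {O' : Type} [CommRing O'] [HopfAlgebra ℚ O'] (hO' : LinearlyReductive O')
    (A' : OverB.HopfAction ℚ Gal(AlgebraicClosure F/F) O')
    (π : (ℚ ⊗[B] O) →ₐc[ℚ] O') (ν : (ℚ ⊗[B] O) →ₐc[ℚ] ℚ[T;T⁻¹])
    (hL : IsLeviHat A A' π ν) (sat : ∀ i : TL.Ix A S φ, Hk ℓ U i.v)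
    (hT : TL.TorsionDetected a sat)
    (m : HeightOneSpectrum (𝓞 F) → (O' →ₐ[ℚ] PadicAlgCl ℓ)) (a₀ : ℤ)
    (hocc : OccursInterior μ D' a₀ sat a' π ν m) :
    ∃ c : Gal(AlgebraicClosure F/F) → (O' →ₐ[ℚ] PadicAlgCl ℓ),
      IsAttached A' S φ (fun i => m i.v i.f) c :=
  TL.main μ hM hq hcl a a' j hj hU hK hUP S hSl hgood hO A hA hS φ hφ hO' A' π ν hL sat hT m a₀ hocc

end Pool.Agent.Results.MP_666dc0_nt.TorsionLevi
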