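import Pool.Agent.Lib.MP_666dc0_nt.WL.G5

open NumberField IsDedekindDomain TensorProduct Pool.Agent.Lib.MP_666dc0_nt
  Pool.Agent.Lib.MP_666dc0_nt.WL
open scoped NumberField TensorProduct

namespace Pool.Agent.Results.MP_666dc0_nt.WeightLevel

/-- **In the Buzzard-Gee conjecture for groups that are compact at infinity, the weight and the
level at `ℓ` are irrelevant; it suffices to treat trivial infinity types and (for example)
supercuspidal components at `ℓ`.**

Let `F` be a totally real number field and `G ⊆ GL_n` the group over `F` of all matrices that fix a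
symmetric matrix `q`, totally positive definite, and finitely many tensors (the datum `D`); every
connected reductive group over `F` that is compact at infinity has such a realisation.
Let `Ĝ = Spec O` be an affine group scheme of finite type over a principal ideal domain `B` with
field of fractions `ℚ` (for example `ℤ_(ℓ)`), `O` free over `B`, with linearly reductive generic
fibre, on which `Γ_F` acts through a finite quotient unramified outside the finite set `S`, and
`ᴸG = Ĝ ⋊ Γ_F`. Let `ℓ` be a prime all of whose divisors are in `S`, `φ v` (`v ∉ S`) a Frobenius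
element at `v`, `U` a tame level (a subgroup of `G(𝔸_f)`, trivial above `ℓ`) good outside `S`, and
`sat v` any map (for example a Satake transform) from the invariant functions on `Ĝ ⋊ φ v` to the
`ℓ`-integral elements of the Hecke algebra of `U` at `v`. The Buzzard-Gee statement for an
eigenform `f` with eigenvalues `lam v h` says: they lie in a number field `E`, and for every
embedding `ι : E → ℚ̄_ℓ` there is a homomorphism `r : Γ_F → ᴸG(ℚ̄_ℓ)` attached to
`ι (lam v (sat v f))` (continuous, over `Γ_F`, unramified outside `S`, with `f (r (φ v))` equal to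
`ι (lam v (sat v f))` for all invariant functions `f`).

Then the following statements are equivalent:
(1) the Buzzard-Gee statement for all automorphic forms on `G` of tame level `U`, of all algebraic
weights (all irreducible representations of `G(F ⊗ ℂ)`) and of all levels `K` at `ℓ`;
(2) the same for the forms of weight zero (and all levels `K` at `ℓ`);
(3) the same for one level `K₀` at `ℓ` and for weights in `Q`, where `Q` is any space of polynomial
functions on `G(F ⊗ ℂ)`, stable under translations, that is deep at `ℓ`: it contains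
`a ^ N * (all polynomials of degree ≤ d)` for some `a` with `a(1) ≠ 0`, all `d`, and exponents `N`
divisible by arbitrarily large powers of `ℓ`;
(4) the same for the forms of weight zero that have, at `ℓ`, a type in `T`, where `T` is any family
of types that is omnipresent at `ℓ` (arbitrarily small levels `J` with a character of order a large
power of `ℓ`, all of whose non-trivial powers give members of `T`). -/
theorem result {F : Type} [Field F] [NumberField F] [IsTotallyReal F] {n : ℕ} (D : Datum F n)
    (hD : IsTotPosDef D.q) (ℓ : ℕ) [Fact ℓ.Prime]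
    {B : Type} [CommRing B] [IsDomain B] [IsPrincipalIdealRing B] [Algebra B ℚ]
    [IsFractionRing B ℚ] [Algebra B (PadicAlgCl ℓ)]
    {O : Type} [CommRing O] [HopfAlgebra B O] [Algebra.FiniteType B O] [Module.Free B O]
    (hO : LinearlyReductive (ℚ ⊗[B] O)) (A : OverB.HopfAction B Gal(AlgebraicClosure F/F) O)
    (hA : IsOpen (A.act.ker : Set Gal(AlgebraicClosure F/F)))
    (S : Finset (HeightOneSpectrum (𝓞 F)))
    (hS : ∀ v, v ∉ S → ∀ P u, IsInertiaAt v P u → A.act u = 1)
    (hSl : ∀ v : HeightOneSpectrum (𝓞 F), (ℓ : 𝓞 F) ∈ v.asIdeal → v ∈ S)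
    (φ : HeightOneSpectrum (𝓞 F) → Gal(AlgebraicClosure F/F))
    (hφ : ∀ v, v ∉ S → ∃ P : Ideal (𝓞 (AlgebraicClosure F)), IsOver v P ∧
      (IsFrob v P (φ v) ∨ IsFrob v P (φ v)⁻¹))
    (U : Subgroup D.Ad) (hU : IsTame ℓ U) (hUS : ∀ v, v ∉ S → IsGoodAt U v)
    (sat : ∀ v, A.inv (φ v) → Hecke U v) (hsat : ∀ v f, (sat v f).IsIntegral ℓ) :
    ((∀ K, IsLevel ℓ U K → Q1For ℓ A S φ U sat (polySub D) (U ⊔ K)) ↔
      ∀ K, IsLevel ℓ U K → Q1For ℓ A S φ U sat (constSub D) (U ⊔ K)) ∧
    (∀ K₀, IsLevel ℓ U K₀ → ∀ Q, IsDeep ℓ D Q →
      ((∀ K, IsLevel ℓ U K → Q1For ℓ A S φ U sat (polySub D) (U ⊔ K)) ↔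
        Q1For ℓ A S φ U sat Q (U ⊔ K₀))) ∧
    ∀ T, IsOmni ℓ U T →
      ((∀ K, IsLevel ℓ U K → Q1For ℓ A S φ U sat (polySub D) (U ⊔ K)) ↔
        ∀ t ∈ T, Q1ForType ℓ A S φ U sat (constSub D) t) :=
  main_WL hD ℓ hO A hA S hS hSl φ hφ U hU hUS sat hsat

end Pool.Agent.Results.MP_666dc0_nt.WeightLevel
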