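import Pool.Agent.Lib.MP_666dc0_nt.BBackward
import Pool.Agent.Lib.MP_666dc0_nt.CEnd

open NumberField IsDedekindDomain Pool.Agent.Lib.MP_666dc0_nt Pool.Agent.Lib.MP_666dc0_nt.OverB
open scoped NumberField

namespace Pool.Agent.Results.MP_666dc0_nt.WeightZero

/-- **The weight zero case of Q1.** Let `F` be a number field and `Ĝ = Spec O` an
affine group scheme of finite type over `ℤ`, with `O` a free `ℤ`-module, on which `Γ_F` acts
through a finite quotient, unramified outside a finite set `S` of finite places; `ᴸG = Ĝ ⋊ Γ_F`.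
For each place `v ∉ S` let `φ v` be an (arithmetic or geometric) Frobenius element at `v` and
`x v` an integral point, over the ring of integers `𝓞 K` of `K = ℚ̄`, of the quotient `X_v` of
`Ĝ ⋊ φ v` by `Ĝ`-conjugation. Then the following are equivalent:

* there is an admissible `r : Γ_F → ᴸG(ℚ̄)`, for the discrete topology on `ℚ̄`, that is conjugate
  to `x v` at all `v ∉ S`;
* all `x v`, `v ∉ S`, are defined over one number field, the conjugates of the values `x v f` are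
  bounded independently of `v`, and for all primes `ℓ` and embeddings `ι : ℚ̄ → ℚ̄_ℓ` there is an
  admissible `r : Γ_F → ᴸG(ℚ̄_ℓ)` that is conjugate to `ι(x v)` at all `v ∉ S` with `v ∤ ℓ`
  (so that Q1 holds for the family `x`);
* outside a set of places `v` of density zero, `x v` has finite order or is defined over one number
  field with values and conjugates bounded independently of `v`, and such an `r` exists for
  some embedding `ι` at two different primes;
* outside a set of places `v` of density zero, `x v` has finite order or is defined over one number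
  field with values and conjugates bounded independently of `v`, and for infinitely many primes `ℓ`
  there are an algebraically closed field `k` of characteristic `ℓ`, a homomorphism
  `π : 𝓞 K → k` and an admissible `r : Γ_F → ᴸG(k)`, for the discrete topology on
  `k`, that is conjugate to `π(x v)` at all `v ∉ S` with `v ∤ ℓ`. -/
theorem result {F : Type*} [Field F] [NumberField F]
    {O : Type} [CommRing O] [HopfAlgebra ℤ O] [Algebra.FiniteType ℤ O] [Module.Free ℤ O]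
    (A : HopfAction ℤ Gal(AlgebraicClosure F/F) O)
    (hA : IsOpen (A.act.ker : Set Gal(AlgebraicClosure F/F)))
    (S : Finset (HeightOneSpectrum (𝓞 F)))
    (hS : ∀ v, v ∉ S → ∀ P u, IsInertiaAt v P u → A.act u = 1)
    (φ : HeightOneSpectrum (𝓞 F) → Gal(AlgebraicClosure F/F))
    (hφ : ∀ v, v ∉ S → ∃ P : Ideal (𝓞 (AlgebraicClosure F)), IsOver v P ∧
      (IsFrob v P (φ v) ∨ IsFrob v P (φ v)⁻¹))
    {K : Type} [Field K] [CharZero K] [IsAlgClosed K] [Algebra.IsAlgebraic ℚ K]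
    (x : ∀ v, A.inv (φ v) →+* 𝓞 K) :
    List.TFAE [
      ∃ r : Gal(AlgebraicClosure F/F) →* A.LGroup K, IsAdmissibleDisc A r ∧
        ∀ v, v ∉ S → OverB.IsConjAt A r v (φ v) ((algebraMap (𝓞 K) K).comp (x v)),
      (∃ (E : IntermediateField ℚ K) (C : O → ℝ), FiniteDimensional ℚ E ∧
          ∀ v, v ∉ S → IsBoundedPt A E C (φ v) (x v)) ∧
        ∀ (ℓ : ℕ) [Fact ℓ.Prime] (ι : K →+* PadicAlgCl ℓ), HasGaloisRep A S φ x ℓ ι,
      (∃ (E : IntermediateField ℚ K) (C : O → ℝ), FiniteDimensional ℚ E ∧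
          DensityZero {v | v ∉ S ∧
            ¬ (IsTorsionPt A (φ v) (x v) ∨ IsBoundedPt A E C (φ v) (x v))}) ∧
        ∃ (p q : ℕ) (_ : Fact p.Prime) (_ : Fact q.Prime), p ≠ q ∧
          (∃ ι : K →+* PadicAlgCl p, HasGaloisRep A S φ x p ι) ∧
          ∃ ι : K →+* PadicAlgCl q, HasGaloisRep A S φ x q ι,
      (∃ (E : IntermediateField ℚ K) (C : O → ℝ), FiniteDimensional ℚ E ∧
          DensityZero {v | v ∉ S ∧
            ¬ (IsTorsionPt A (φ v) (x v) ∨ IsBoundedPt A E C (φ v) (x v))}) ∧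
        {ℓ : ℕ | ℓ.Prime ∧ ∃ (k : Type) (_ : Field k) (_ : IsAlgClosed k) (_ : CharP k ℓ)
          (π : 𝓞 K →+* k) (r : Gal(AlgebraicClosure F/F) →* A.LGroup k), IsAdmissibleDisc A r ∧
            ∀ v, v ∉ S → (ℓ : 𝓞 F) ∉ v.asIdeal →
              OverB.IsConjAt A r v (φ v) (π.comp (x v))}.Infinite] := by
  have hfree : @Module.Free ℤ O _ _ Algebra.toModule := free_of_free _ _ ‹Module.Free ℤ O›
  have hemb : ∀ (ℓ : ℕ) [Fact ℓ.Prime], Nonempty (K →+* PadicAlgCl ℓ) := fun ℓ _ =>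
    ⟨(IsAlgClosed.lift (R := ℚ) (S := K) (M := PadicAlgCl ℓ)).toRingHom⟩
  have hcq : ∀ (ℓ : ℕ) [Fact ℓ.Prime] (q : ℕ), q.Prime →
      (ℓ : ℝ)⁻¹ ≤ ‖(q : PadicAlgCl ℓ)‖ := by
    intro ℓ hℓ q hq
    have h1 : ‖(q : PadicAlgCl ℓ)‖ = ‖(q : ℚ_[ℓ])‖ := by
      rw [← map_natCast (algebraMap ℚ_[ℓ] (PadicAlgCl ℓ)), PadicAlgCl.norm_extends]
    rw [h1]
    by_cases hql : q = ℓ
    · rw [hql, Padic.norm_p]
    · have h2 : ‖(q : ℚ_[ℓ])‖ = 1 := by
        rw [Padic.norm_natCast_eq_one_iff]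
        exact (Nat.coprime_primes hℓ.out hq).mpr fun h => hql h.symm
      rw [h2]
      exact inv_le_one_of_one_le₀ (by exact_mod_cast hℓ.out.one_lt.le)
  have hdz : ∀ T : Set (HeightOneSpectrum (𝓞 F)), DensityZero T → HasDens T 0 := by
    intro T hT
    refine hT.congr fun s => ?_
    rw [pSum, ← tsum_subtype]
    rfl
  have hzd : ∀ T : Set (HeightOneSpectrum (𝓞 F)), HasDens T 0 → DensityZero T := by
    intro T hT
    refine hT.congr fun s => ?_
    rw [pSum, ← tsum_subtype]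
    rfl
  -- the first statement implies the mixed condition
  have hmix : ∀ (E : IntermediateField ℚ K) (C : O → ℝ),
      (∀ v, v ∉ S → IsBoundedPt A E C (φ v) (x v)) → DensityZero {v | v ∉ S ∧
        ¬ (IsTorsionPt A (φ v) (x v) ∨ IsBoundedPt A E C (φ v) (x v))} := by
    intro E C h
    have h1 : {v | v ∉ S ∧ ¬ (IsTorsionPt A (φ v) (x v) ∨ IsBoundedPt A E C (φ v) (x v))} = ∅ := by
      rw [Set.eq_empty_iff_forall_notMem]
      rintro v ⟨hv, hv'⟩
      exact hv' (Or.inr (h v hv))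
    rw [h1]
    exact hzd _ (hasDens_finite Set.finite_empty)
  tfae_have 1 → 2 := by
    rintro ⟨r, hr, hconj⟩
    obtain ⟨⟨E, hE, h1⟩, h2⟩ := galoisRep_of_disc A hfree hA S φ x r hr hconj
    obtain ⟨C, hC⟩ := bounded_of_disc A r hr
    refine ⟨⟨E, C, hE, fun v hv f => ⟨h1 v hv f, fun τ => ?_⟩⟩, fun ℓ _ ι => h2 ℓ ι⟩
    have h3 := (hconj v hv).value f
    have h4 := hC (f : O) (φ v) τ
    rw [h3] at h4
    exact h4
  tfae_have 2 → 3 := by
    rintro ⟨⟨E, C, hE, h1⟩, h2⟩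
    have : Fact (Nat.Prime 2) := ⟨Nat.prime_two⟩
    have : Fact (Nat.Prime 3) := ⟨Nat.prime_three⟩
    obtain ⟨ι⟩ := hemb 2
    obtain ⟨ι'⟩ := hemb 3
    exact ⟨⟨E, C, hE, hmix E C h1⟩, 2, 3, inferInstance, inferInstance, by norm_num,
      ⟨ι, h2 2 ι⟩, ⟨ι', h2 3 ι'⟩⟩
  tfae_have 3 → 1 := by
    rintro ⟨⟨E, C, hE, hx⟩, p, q, hp, hq, hpq, ⟨ι, h⟩, ι', h'⟩
    have hres : ∀ (ℓ : ℕ) [Fact ℓ.Prime] (ι : K →+* PadicAlgCl ℓ), HasGaloisRep A S φ x ℓ ι →
        ∃ D : ResData A S φ x ℓ, CharZero D.k := by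
      intro ℓ hℓ ι h
      refine HasGaloisRep.resData' hfree hA hφ E C (hdz _ hx) hℓ.out.pos (c := (ℓ : ℝ)⁻¹) ?_ ?_
        (hcq ℓ) ι h
      · exact inv_pos.mpr (by exact_mod_cast hℓ.out.pos)
      · exact inv_le_one_of_one_le₀ (by exact_mod_cast hℓ.out.one_lt.le)
    obtain ⟨D, hD⟩ := hres p ι h
    obtain ⟨D', hD'⟩ := hres q ι' h'
    refine exists_of_two_good A hfree hA S hS φ hφ x (fun ρ v hv => ?_) hp.out hq.out hpq
      D hD D' hD'
    by_cases hvp : (p : 𝓞 F) ∈ v.asIdeal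
    · refine goodAt_of_charZero ρ hA D' hD' v hv fun hvq => ?_
      exact hpq (eq_of_mem_prime v hp.out hq.out hvp hvq)
    · exact goodAt_of_charZero ρ hA D hD v hv hvp
  tfae_have 1 → 4 := by
    rintro ⟨r, hr, hconj⟩
    refine ⟨?_, ?_⟩
    · obtain ⟨⟨E, C, hE, h1⟩, -⟩ := tfae_1_to_2 ⟨r, hr, hconj⟩
      exact ⟨E, C, hE, hmix E C h1⟩
    · obtain ⟨m, hm, h⟩ := residual_of_exists A hfree hA S φ x r hr hconj
      have h1 : ({ℓ : ℕ | ℓ.Prime} \ {ℓ | ℓ ∣ m}).Infinite := by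
        refine Nat.infinite_setOfPred_prime.sdiff ?_
        refine (Finset.range (m + 1)).finite_toSet.subset fun ℓ hℓ => ?_
        simp only [Finset.coe_range, Set.mem_Iio]
        have := Nat.le_of_dvd hm hℓ
        omega
      refine h1.mono ?_
      rintro ℓ ⟨hℓ, hℓm⟩
      obtain ⟨D, hD⟩ := h ℓ hℓ hℓm
      exact ⟨hℓ, D.k, D.fk, D.ck, hD, D.π, D.r, D.adm, D.conj⟩
  tfae_have 4 → 1 := by
    rintro ⟨⟨E, C, hE, hx⟩, h⟩
    have hinf : {ℓ : ℕ | ℓ.Prime ∧ Nonempty (ResData A S φ x ℓ)}.Infinite := by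
      refine h.mono ?_
      rintro ℓ ⟨hℓ, k, fk, ck, pk, π, r, h1, h2⟩
      exact ⟨hℓ, ⟨⟨k, fk, ck, fun m hm => by
        rw [Ne, CharP.cast_eq_zero_iff k ℓ]; exact hm, π, r, h1, h2⟩⟩⟩
    exact exists_of_residual_good A hfree hA S hS φ hφ x
      (fun ρ v hv => goodAt_of_infinite ρ hA hφ E C (hdz _ hx) hinf v hv) hinf
  tfae_finish

end Pool.Agent.Results.MP_666dc0_nt.WeightZero
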