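import Pool.Agent.Lib.MP_666dc0_nt.Mg.G081

open NumberField IsDedekindDomain TensorProduct Pool.Agent.Lib.MP_666dc0_nt
  Pool.Agent.Lib.MP_666dc0_nt.WL Pool.Agent.Lib.MP_666dc0_nt.ZO
open scoped NumberField TensorProduct

namespace Pool.Agent.Results.MP_666dc0_nt.ZeroOne

/-- **A zero-one law for the conjecture of Buzzard and Gee on groups that are compact at infinity.**

`F` is a totally real number field and `G ⊆ GL_n` the group over `F` of all matrices that fix a symmetric
matrix `q`, totally positive definite, and finitely many tensors (the datum `D`). `Ĝ = Spec O`, `ᴸG = Ĝ ⋊ Γ_F`,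
the finite set `S` of places (all places above the prime `ℓ` are in it), Frobenius elements `φ v`, a tame level `U`
which is good outside `S`, and maps `sat v` from the invariant functions on `Ĝ ⋊ φ v` to the `ℓ`-integral Hecke
operators are as in the hand-in WeightLevel. `K 0 ≥ K 1 ≥ …` are levels at `ℓ`: `K 0` is a uniform pro-`ℓ` group
of dimension `d`, congruent to `1` modulo `ℓ²`, and `K s = (K 0) ^ (ℓ ^ s)` (`IsUniform`). `Q` runs through all
finite-dimensional spaces of polynomial functions on `G(F ⊗ ℂ)` that are stable under right translations (for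
example the matrix coefficients in a row of an irreducible representation); `AllSys` is the set of the systems of
Hecke eigenvalues (outside `S`) of the eigenforms of tame level `U`, of all weights and all levels at `ℓ`.

(1) Let `ι : ℂ ≅ ℚ̄_ℓ` and let `lam₀` be a system of eigenvalues. For every level `J ⊆ K_0` at `ℓ` and every `Q` the
eigenforms with weights in `Q` and level `U J` whose eigenvalues at the `ℓ`-integral Hecke operators are congruent to
those of `lam₀` span a space of dimension exactly `r(lam₀) [K_0 : J] dim Q`, where `r(lam₀)` is this dimension for weight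
zero and level `U K_0`. Either all systems (of all weights and all levels at `ℓ`) that are congruent to `lam₀` have an
attached homomorphism `Γ_F → ᴸG(ℚ̄_ℓ)`, or there is `C` such that for ALL `s`, ALL levels `J ⊆ K_s` at `ℓ` and ALL `Q` the
eigenforms with weights in `Q` and level `U J` that are congruent to `lam₀` and have NO attached homomorphism span a
space of dimension `≥ (1 - C ℓ ^ (-s)) [K_0 : J] dim Q`.

(2) All eigenforms with weights in `Q` and level `U J` span a space of dimension exactly `r [K_0 : J] dim Q` (`J ⊆ K_0`,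
`r`: this dimension for weight zero and level `U K_0`). Either the statement of Buzzard and Gee (eigenvalues in a
number field `E`, an attached homomorphism for every embedding `E → ℚ̄_ℓ`) holds for all systems of all weights and
all levels at `ℓ`, or there is `C` such that for all `s`, all levels `J ⊆ K_s` at `ℓ` and all `Q` the eigenforms with
weights in `Q` and level `U J` for which it fails span a space of dimension `≥ (1 - C ℓ ^ (-s)) [K_0 : J] dim Q`, a
positive share `(1 - C ℓ ^ (-s)) / r` of all. -/
theorem result {F : Type} [Field F] [NumberField F] [IsTotallyReal F] {n : ℕ} (D : Datum F n)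
    (hD : IsTotPosDef D.q) (ℓ : ℕ) [Fact ℓ.Prime]
    {B : Type} [CommRing B] [IsDomain B] [IsPrincipalIdealRing B] [Algebra B ℚ]
    [IsFractionRing B ℚ] [Algebra B (PadicAlgCl ℓ)]
    {O : Type} [CommRing O] [HopfAlgebra B O] [Algebra.FiniteType B O] [Module.Free B O]
    (hO : LinearlyReductive (ℚ ⊗[B] O)) (A : OverB.HopfAction B Gal(AlgebraicClosure F/F) O)
    (hA : IsOpen (A.act.ker : Set Gal(AlgebraicClosure F/F)))
    (S : Finset (HeightOneSpectrum (𝓞 F)))
    (hS : ∀ v, v ∉ S → ∀ P u, IsInertiaAt v P u → A.act u = 1)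
    (hSl : ∀ v : HeightOneSpectrum (𝓞 F), (ℓ : 𝓞 F) ∈ v.asIdeal → v ∈ S)
    (φ : HeightOneSpectrum (𝓞 F) → Gal(AlgebraicClosure F/F))
    (hφ : ∀ v, v ∉ S → ∃ P : Ideal (𝓞 (AlgebraicClosure F)), IsOver v P ∧
      (IsFrob v P (φ v) ∨ IsFrob v P (φ v)⁻¹))
    (U : Subgroup D.Ad) (hU : IsTame ℓ U) (hUS : ∀ v, v ∉ S → IsGoodAt U v)
    (sat : ∀ v, A.inv (φ v) → Hecke U v) (hsat : ∀ v f, (sat v f).IsIntegral ℓ)
    (d : ℕ) (K : ℕ → Subgroup D.Ad) (hK : IsUniform ℓ d U K) :
    (∀ (ι : ℂ ≃+* PadicAlgCl ℓ), ∀ lam₀ ∈ AllSys ℓ S U, (Count ℓ S U K fun lam => Cong ℓ S ι lam lam₀) ∧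
      ((∀ lam ∈ AllSys ℓ S U, Cong ℓ S ι lam lam₀ → Att ℓ A S φ sat ι lam) ∨
        Abundant ℓ S U K fun lam => Cong ℓ S ι lam lam₀ ∧ ¬Att ℓ A S φ sat ι lam)) ∧
    (Count ℓ S U K fun _ => True) ∧
    ((∀ lam ∈ AllSys ℓ S U, Q1Sys ℓ A S φ sat lam) ∨
      Abundant ℓ S U K fun lam => ¬Q1Sys ℓ A S φ sat lam) :=
  laws hD ℓ hO A hA S hS hSl φ hφ hU hUS sat hsat hK

end Pool.Agent.Results.MP_666dc0_nt.ZeroOne
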